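import Pool.Agent.Helper98.OrdLower

set_option autoImplicit false

/-!
MP_d24be6_pr: a pattern `P` splits into blocks `A^t B^t` and `B^t A^t` exactly if there are
arbitrarily large `{P}`-cliques (the definition of collectable patterns in the problem file).
-/

namespace Pool.Agent.Helper6.HJ

open Finset Pool.Agent.Helper98.OM

/-- There are arbitrarily large `{P}`-cliques: ordered `r`-matchings in which every two edges form
the pattern `P`. -/
def LargeCliques (r : ℕ) (P : List Bool) : Prop :=
  ∀ k : ℕ, ∃ n : ℕ, k ≤ n ∧ ∃ M : OrdMatching r n, IsClique {P} M.1.parts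

/-- three edges suffice -/
theorem collectable_of_three {r : ℕ} (hr : 0 < r) {P : List Bool} (hP : IsRPattern r P)
    {n : ℕ} (hn : 3 ≤ n) (M : OrdMatching r n) (hM : IsClique {P} M.1.parts) : Collectable P := by
  classical
  obtain ⟨hc1, hc2, -⟩ := hP
  have hcard := card_parts hr M
  -- order the edges by their minima
  have hinj : Set.InjOn (fun e : Finset ℕ => nth e 0) (M.1.parts : Set (Finset ℕ)) := by
    intro e he f hf h
    have he' : 0 < e.card := by rw [M.2 e he]; exact hr
    have hf' : 0 < f.card := by rw [M.2 f hf]; exact hr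
    refine M.1.eq_of_mem_parts he hf (nth_mem he') ?_
    have h' : nth e 0 = nth f 0 := h
    rw [h']
    exact nth_mem hf'
  set T : Finset ℕ := M.1.parts.image (fun e => nth e 0) with hT
  have hTc : T.card = n := by rw [hT, Finset.card_image_of_injOn hinj, hcard]
  have hmem : ∀ i < n, ∃ e ∈ M.1.parts, nth e 0 = nth T i := by
    intro i hi
    have := nth_mem (e := T) (i := i) (by rw [hTc]; exact hi)
    rw [hT, Finset.mem_image] at this
    exact this
  obtain ⟨e, he, he0⟩ := hmem 0 (by omega)
  obtain ⟨f, hf, hf0⟩ := hmem 1 (by omega)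
  obtain ⟨g, hg, hg0⟩ := hmem 2 (by omega)
  have h01 : nth e 0 < nth f 0 := by
    rw [he0, hf0]; exact nth_lt_nth (by omega) (by omega)
  have h12 : nth f 0 < nth g 0 := by
    rw [hf0, hg0]; exact nth_lt_nth (by omega) (by omega)
  have cpos : ∀ e ∈ M.1.parts, 0 < e.card := fun e he => by rw [M.2 e he]; exact hr
  have key : ∀ e ∈ M.1.parts, ∀ f ∈ M.1.parts, nth e 0 < nth f 0 →
      word e f = P ∧ Disjoint e f := by
    intro e he f hf h
    have hne : e ≠ f := by
      rintro rfl
      exact lt_irrefl _ h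
    refine ⟨?_, M.1.disjoint he hf hne⟩
    rw [← pattern_eq_word (cpos e he) h]
    exact hM e he f hf hne
  obtain ⟨w1, d1⟩ := key e he f hf h01
  obtain ⟨w2, d2⟩ := key e he g hg (h01.trans h12)
  obtain ⟨w3, d3⟩ := key f hf g hg h12
  have tri := tri_word (M.2 e he) (M.2 f hf) (M.2 g hg) d1 d2 d3
  rw [w1, w2, w3] at tri
  obtain ⟨μ, h, -⟩ := splits_of_cuts r P P hc1 hc2 hc1 hc2 tri tri (fun _ _ => Iff.rfl)
  exact ⟨μ, h⟩

/-- a splitting pattern has cliques of every size -/
theorem clique_of_collectable {r : ℕ} (hr : 0 < r) {P : List Bool} (hP : IsRPattern r P)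
    (h : Collectable P) (k : ℕ) : ∃ M : OrdMatching r k, IsClique {P} M.1.parts := by
  classical
  obtain ⟨hc1, hc2, hc0⟩ := hP
  obtain ⟨μ, hμ⟩ := h
  obtain ⟨L, sg, hL, hLi, hsg, hb⟩ := splits_repr hμ
  rw [hc1] at hb
  -- the edges, before compression
  let x : ℕ → Fin r → ℕ := fun a j => (L j * k + pos sg k a j) * r + j
  have hdiv : ∀ a (j : Fin r), x a j / r = L j * k + pos sg k a j := by
    intro a j
    simp only [x]
    rw [mul_comm, Nat.mul_add_div hr, Nat.div_eq_of_lt j.2, add_zero]
  have hmod : ∀ a (j : Fin r), x a j % r = j := by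
    intro a j
    simp only [x]
    rw [mul_comm, Nat.mul_add_mod, Nat.mod_eq_of_lt j.2]
  let ed : ℕ → Finset ℕ := fun a => univ.image (x a)
  have hed : ∀ a y, y ∈ ed a ↔ ∃ j, x a j = y := by
    intro a y; simp [ed]
  have hedc : ∀ a, (ed a).card = r := by
    intro a
    rw [Finset.card_image_of_injective]
    · simp
    · intro j j' h
      have h1 := hmod a j
      have h2 := hmod a j'
      have h3 : x a j = x a j' := h
      rw [h3] at h1
      exact Fin.ext (h1.symm.trans h2)
  have hnth : ∀ a < k, ∀ j < r, nth (ed a) j / r = L j * k + pos sg k a j := by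
    intro a ha j hj
    exact nth_system hL hsg ha (hedc a) (hed a) (fun j => hdiv a j) j hj
  have hpat : ∀ a b, a < b → b < k → pattern (ed a) (ed b) = P ∧ pattern (ed b) (ed a) = P := by
    intro a b hab hbk
    have := system_pattern (l := r) hr hc1 hc2 hc0 hb hsg hab hbk (hedc a) (hedc b)
      (hnth a (by omega)) (hnth b hbk)
    exact ⟨this.1, this.2.1⟩
  -- compression
  let U : Finset ℕ := (Finset.univ : Finset (Fin k × Fin r)).image (fun y => x y.1 y.2)
  have hxinj : Function.Injective (fun y : Fin k × Fin r => x y.1 y.2) := by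
    rintro ⟨a, j⟩ ⟨b, j'⟩ h
    have h0 : x a j = x b j' := h
    have h1 := hmod a j
    have h2 := hmod b j'
    rw [h0, h2] at h1
    have hj : j' = j := Fin.ext h1
    subst hj
    have h3 := hdiv a j'
    have h4 := hdiv b j'
    rw [h0, h4] at h3
    have h5 : pos sg k b j' = pos sg k a j' := by omega
    have ha := a.2
    have hbb := b.2
    have h6 : (a : ℕ) = b := by
      unfold pos at h5
      split_ifs at h5 <;> omega
    rw [Fin.ext h6]
  have hUc : U.card = r * k := by
    rw [Finset.card_image_of_injective _ hxinj]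
    simp [mul_comm]
  let φ : ℕ → ℕ := fun y => (U.filter (· < y)).card
  have hφ : StrictMonoOn φ (U : Set ℕ) := by
    intro y hy z _ hyz
    apply Finset.card_lt_card
    rw [Finset.ssubset_iff_of_subset]
    · refine ⟨y, ?_, ?_⟩
      · rw [Finset.mem_filter]; exact ⟨hy, hyz⟩
      · rw [Finset.mem_filter]; exact fun h => lt_irrefl _ h.2
    · intro w hw
      rw [Finset.mem_filter] at hw ⊢
      exact ⟨hw.1, hw.2.trans hyz⟩
  have hφlt : ∀ y ∈ U, φ y < r * k := by
    intro y hy
    rw [← hUc]
    apply Finset.card_lt_card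
    rw [Finset.ssubset_iff_of_subset (Finset.filter_subset _ _)]
    exact ⟨y, hy, fun h => lt_irrefl _ (Finset.mem_filter.1 h).2⟩
  have hxU : ∀ (a : Fin k) (j : Fin r), x a j ∈ U := fun a j =>
    Finset.mem_image_of_mem (fun y : Fin k × Fin r => x y.1 y.2) (Finset.mem_univ (a, j))
  let σ0 : Fin k × Fin r → Fin (r * k) := fun y => ⟨φ (x y.1 y.2), hφlt _ (hxU y.1 y.2)⟩
  have hσinj : Function.Injective σ0 := by
    intro y z h
    have h1 : φ (x y.1 y.2) = φ (x z.1 z.2) := congrArg Fin.val h
    exact hxinj (hφ.injOn (hxU _ _) (hxU _ _) h1)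
  have hσbij : Function.Bijective σ0 := by
    rw [Fintype.bijective_iff_injective_and_card]
    exact ⟨hσinj, by simp [mul_comm]⟩
  let σ := Equiv.ofBijective σ0 hσbij
  have hedge : ∀ a : Fin k, edge (sv σ) a = (ed a).image φ := by
    intro a
    ext y
    rw [mem_edge, Finset.mem_image]
    constructor
    · rintro ⟨j, rfl⟩
      exact ⟨x a j, (hed a _).2 ⟨j, rfl⟩, rfl⟩
    · rintro ⟨z, hz, rfl⟩
      obtain ⟨j, rfl⟩ := (hed a _).1 hz
      exact ⟨j, rfl⟩
  refine ⟨toOM hr σ, ?_⟩
  rw [toOM_parts]
  intro e he f hf hne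
  obtain ⟨a, -, rfl⟩ := Finset.mem_image.1 he
  obtain ⟨b, -, rfl⟩ := Finset.mem_image.1 hf
  have hab : a ≠ b := by
    rintro rfl
    exact hne rfl
  have hedU : ∀ a : Fin k, ed a ⊆ U := by
    intro a y hy
    obtain ⟨j, rfl⟩ := (hed a _).1 hy
    exact hxU a j
  have hsm : StrictMonoOn φ ((ed a ∪ ed b : Finset ℕ) : Set ℕ) :=
    hφ.mono (by exact_mod_cast Finset.union_subset (hedU a) (hedU b))
  rw [hedge, hedge, pattern_image hsm, Set.mem_singleton_iff]
  rcases lt_or_gt_of_ne hab with h | h
  · exact (hpat a b h b.2).1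
  · exact (hpat b a h a.2).2

/-- An `r`-pattern is collectable (it splits into blocks) if and only if there are arbitrarily large
`{P}`-cliques. -/
theorem collectable_iff {r : ℕ} (hr : 0 < r) {P : List Bool} (hP : IsRPattern r P) :
    Collectable P ↔ LargeCliques r P := by
  constructor
  · intro h k
    exact ⟨k, le_rfl, clique_of_collectable hr hP h k⟩
  · intro h
    obtain ⟨n, hn, M, hM⟩ := h 3
    exact collectable_of_three hr hP hn M hM

end Pool.Agent.Helper6.HJ
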